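import Pool.Agent.Run7.h378.PS.Stm

set_option autoImplicit false

namespace Run7.h112.PS

open scoped MatrixOrder Matrix.Norms.L2Operator

open MvPolynomial Filter Topology Run7.h378.PS

/-- exponents with all coordinates at most `m` -/
abbrev B (v m : ℕ) : Type := Fin v → Fin (m + 1)

/-- the exponent -/
noncomputable def ex {v m : ℕ} (b : B v m) : Fin v →₀ ℕ := Finsupp.equivFunOnFinite.symm fun i => (b i : ℕ)

theorem ex_apply {v m : ℕ} (b : B v m) (i : Fin v) : ex b i = (b i : ℕ) := rfl

theorem ex_inj {v m : ℕ} : Function.Injective (ex : B v m → (Fin v →₀ ℕ)) := by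
  intro a b h
  funext i
  have := DFunLike.congr_fun h i
  exact Fin.ext this

theorem ex_surj {v m : ℕ} {γ : Fin v →₀ ℕ} (h : ∀ i, γ i ≤ m) : ∃ b : B v m, ex b = γ :=
  ⟨fun i => ⟨γ i, Nat.lt_succ_of_le (h i)⟩, by ext i; rfl⟩

theorem le_of_mem {v m : ℕ} {q : MvPolynomial (Fin v) ℝ} (hq : q.totalDegree ≤ m) {γ : Fin v →₀ ℕ}
    (h : γ ∈ q.support) (i : Fin v) : γ i ≤ m := by
  have h1 := le_totalDegree h
  have h2 : γ i ≤ γ.sum fun _ e => e := by
    rw [Finsupp.sum_fintype _ _ fun _ => rfl]
    exact Finset.single_le_sum (f := fun i => γ i) (fun _ _ => Nat.zero_le _) (Finset.mem_univ i)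
  omega

/-- a polynomial of degree at most `m` as a combination of monomials -/
theorem expand {v m : ℕ} {q : MvPolynomial (Fin v) ℝ} (hq : q.totalDegree ≤ m) :
    q = ∑ b : B v m, monomial (ex b) (coeff (ex b) q) := by
  classical
  ext γ
  rw [coeff_sum]
  simp only [coeff_monomial]
  by_cases h : ∃ b : B v m, ex b = γ
  · obtain ⟨b, rfl⟩ := h
    rw [Finset.sum_eq_single b]
    · rw [if_pos rfl]
    · intro c _ hc
      rw [if_neg fun h => hc (ex_inj h)]
    · intro h; exact absurd (Finset.mem_univ _) h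
  · rw [Finset.sum_eq_zero]
    · by_contra hne
      exact h (ex_surj fun i => le_of_mem hq (mem_support_iff.2 hne) i)
    · intro c _
      rw [if_neg fun hc => h ⟨c, hc⟩]

/-- the values of the monomials at the grid points -/
noncomputable def ev (v m : ℕ) : (B v m → ℝ) →ₗ[ℝ] (B v m → ℝ) where
  toFun c p := ∑ b : B v m, c b * ∏ i, ((p i : ℕ) : ℝ) ^ (b i : ℕ)
  map_add' c d := by
    funext p
    simp only [Pi.add_apply, add_mul, Finset.sum_add_distrib]
  map_smul' r c := by
    funext p
    simp only [Pi.smul_apply, smul_eq_mul, RingHom.id_apply, Finset.mul_sum, mul_assoc]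

theorem eval_eq {v m : ℕ} (c : B v m → ℝ) (x : Fin v → ℝ) :
    eval x (∑ b : B v m, monomial (ex b) (c b)) = ∑ b : B v m, c b * ∏ i, x i ^ (b i : ℕ) := by
  rw [map_sum]
  refine Finset.sum_congr rfl fun b _ => ?_
  rw [eval_monomial, Finsupp.prod_fintype _ _ fun _ => pow_zero _]
  rfl

theorem ev_inj (v m : ℕ) : Function.Injective (ev v m) := by
  classical
  rw [injective_iff_map_eq_zero]
  intro c hc
  set q : MvPolynomial (Fin v) ℝ := ∑ b : B v m, monomial (ex b) (c b) with hq
  have h0 : q = 0 := by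
    refine MvPolynomial.eq_zero_of_eval_zero_at_prod_finset q
      (fun _ => (Finset.range (m + 1)).image fun n : ℕ => (n : ℝ)) (fun i => ?_) (fun x hx => ?_)
    · rw [Finset.card_image_of_injective _ Nat.cast_injective, Finset.card_range, Nat.lt_succ_iff,
        degreeOf_le_iff]
      intro γ hγ
      rw [mem_support_iff, hq, coeff_sum] at hγ
      obtain ⟨b, _, hb⟩ := Finset.exists_ne_zero_of_sum_ne_zero hγ
      rw [coeff_monomial] at hb
      split_ifs at hb with h
      · rw [← h, ex_apply]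
        exact Nat.lt_succ_iff.1 (b i).2
      · exact absurd rfl hb
    · have h1 : ∀ i, ∃ n : Fin (m + 1), ((n : ℕ) : ℝ) = x i := by
        intro i
        obtain ⟨n, hn, hx'⟩ := Finset.mem_image.1 (hx i)
        exact ⟨⟨n, Finset.mem_range.1 hn⟩, hx'⟩
      choose p hp using h1
      rw [hq, eval_eq]
      have h2 := congrFun hc p
      have h3 : x = fun i => ((p i : ℕ) : ℝ) := by funext i; exact (hp i).symm
      rw [h3]
      exact h2
  funext b
  have h1 : coeff (ex b) q = c b := by
    rw [hq, coeff_sum]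
    simp only [coeff_monomial]
    rw [Finset.sum_eq_single b]
    · rw [if_pos rfl]
    · intro d _ hd
      rw [if_neg fun h => hd (ex_inj h)]
    · intro h; exact absurd (Finset.mem_univ _) h
  rw [← h1, h0, coeff_zero]
  rfl

/-- the coefficients are bounded by the values at the grid points -/
theorem coeff_bd (v m : ℕ) : ∃ K : ℝ, 0 ≤ K ∧ ∀ (c : B v m → ℝ) (b : B v m),
    c b ^ 2 ≤ K * ∑ p : B v m, (ev v m c p) ^ 2 := by
  classical
  obtain ⟨g, hg⟩ := (ev v m).exists_leftInverse_of_injective (LinearMap.ker_eq_bot.2 (ev_inj v m))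
  have hg' : ∀ c, g (ev v m c) = c := fun c => by
    have := congrFun (congrArg DFunLike.coe hg) c
    exact this
  refine ⟨∑ b : B v m, ∑ p : B v m, (g (Pi.single p 1) b) ^ 2,
    Finset.sum_nonneg fun _ _ => Finset.sum_nonneg fun _ _ => sq_nonneg _, fun c b => ?_⟩
  have h1 : c b = ∑ p : B v m, (g (Pi.single p 1) b) * ev v m c p := by
    have h2 : ev v m c = ∑ p : B v m, (ev v m c p) • (Pi.single p (1 : ℝ) : B v m → ℝ) := by
      funext q
      rw [Finset.sum_apply, Finset.sum_eq_single q]
      · simp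
      · intro p _ hp
        simp [Pi.single_apply, hp.symm]
      · intro h; exact absurd (Finset.mem_univ _) h
    have h3 := congrFun (hg' c) b
    rw [h2, map_sum, Finset.sum_apply] at h3
    rw [← h3]
    refine Finset.sum_congr rfl fun p _ => ?_
    rw [map_smul, Pi.smul_apply, smul_eq_mul, mul_comm]
  rw [h1]
  refine (Finset.sum_mul_sq_le_sq_mul_sq _ _ _).trans ?_
  refine mul_le_mul_of_nonneg_right ?_ (Finset.sum_nonneg fun _ _ => sq_nonneg _)
  exact Finset.single_le_sum (f := fun b => ∑ p : B v m, (g (Pi.single p 1) b) ^ 2)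
    (fun _ _ => Finset.sum_nonneg fun _ _ => sq_nonneg _) (Finset.mem_univ b)

/-- the polynomial of a Gram matrix -/
noncomputable def gp {v m : ℕ} (Q : Matrix (B v m) (B v m) ℝ) : MvPolynomial (Fin v) ℝ :=
  ∑ a, ∑ b, monomial (ex a + ex b) (Q a b)

theorem gram {v m r : ℕ} (q : Fin r → MvPolynomial (Fin v) ℝ) (hq : ∀ i, (q i).totalDegree ≤ m) :
    ∑ i, q i ^ 2 = gp (fun a b : B v m => ∑ i, coeff (ex a) (q i) * coeff (ex b) (q i)) := by
  unfold gp
  have h1 : ∀ i, q i ^ 2 = ∑ a : B v m, ∑ b : B v m,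
      monomial (ex a + ex b) (coeff (ex a) (q i) * coeff (ex b) (q i)) := by
    intro i
    conv_lhs => rw [expand (hq i)]
    rw [sq, Finset.sum_mul_sum]
    refine Finset.sum_congr rfl fun a _ => Finset.sum_congr rfl fun b _ => ?_
    rw [monomial_mul]
  rw [Finset.sum_congr rfl fun i _ => h1 i, Finset.sum_comm]
  refine Finset.sum_congr rfl fun a _ => ?_
  rw [Finset.sum_comm]
  refine Finset.sum_congr rfl fun b _ => ?_
  rw [map_sum]

theorem coeff_gp {v m : ℕ} (Q : Matrix (B v m) (B v m) ℝ) (γ : Fin v →₀ ℕ) :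
    coeff γ (gp Q) = ∑ a, ∑ b, if ex a + ex b = γ then Q a b else 0 := by
  unfold gp
  rw [coeff_sum]
  refine Finset.sum_congr rfl fun a _ => ?_
  rw [coeff_sum]
  refine Finset.sum_congr rfl fun b _ => ?_
  rw [coeff_monomial]

theorem t_CL : S_CL := by
  classical
  intro hD v m F F0 hS hdeg hlim
  choose r q hq using hS
  have hqd : ∀ N i, (q N i).totalDegree ≤ m := fun N => hD v (r N) m (q N) (by
    rw [← hq N]; exact hdeg N)
  set Q : ℕ → Matrix (B v m) (B v m) ℝ := fun N a b =>
    ∑ i, coeff (ex a) (q N i) * coeff (ex b) (q N i) with hQ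
  have hF : ∀ N, F N = gp (Q N) := fun N => by rw [hq N, gram (q N) (hqd N)]
  obtain ⟨K, hK, hKb⟩ := coeff_bd v m
  -- values at the grid points converge
  have hev : ∀ p : Fin v → ℝ, Tendsto (fun N => eval p (F N)) atTop
      (𝓝 (∑ b : B v (2 * m), coeff (ex b) F0 * ∏ i, p i ^ (b i : ℕ))) := by
    intro p
    have h1 : ∀ N, eval p (F N) = ∑ b : B v (2 * m), coeff (ex b) (F N) * ∏ i, p i ^ (b i : ℕ) := by
      intro N
      conv_lhs => rw [expand (hdeg N)]
      exact eval_eq _ _
    simp only [h1]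
    exact tendsto_finsetSum _ fun b _ => (hlim (ex b)).mul_const _
  have hbd : ∃ R : ℝ, ∀ N, K * ∑ p : B v m, eval (fun i => ((p i : ℕ) : ℝ)) (F N) ≤ R := by
    have h1 : Tendsto (fun N => K * ∑ p : B v m, eval (fun i => ((p i : ℕ) : ℝ)) (F N)) atTop
        (𝓝 (K * ∑ p : B v m, ∑ b : B v (2 * m), coeff (ex b) F0 *
          ∏ i, ((p i : ℕ) : ℝ) ^ (b i : ℕ))) :=
      (tendsto_finsetSum _ fun p _ => hev _).const_mul _
    obtain ⟨R, hR⟩ := h1.bddAbove_range
    exact ⟨R, fun N => hR ⟨N, rfl⟩⟩
  obtain ⟨R, hR⟩ := hbd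
  have hdiag : ∀ (N : ℕ) (a : B v m), ∑ i, coeff (ex a) (q N i) ^ 2 ≤ R := by
    intro N a
    refine le_trans ?_ (hR N)
    have h1 : ∀ i, coeff (ex a) (q N i) ^ 2 ≤
        K * ∑ p : B v m, (eval (fun i => ((p i : ℕ) : ℝ)) (q N i)) ^ 2 := by
      intro i
      have h2 := hKb (fun b => coeff (ex b) (q N i)) a
      have h3 : ∀ p : B v m, ev v m (fun b => coeff (ex b) (q N i)) p =
          eval (fun i => ((p i : ℕ) : ℝ)) (q N i) := by
        intro p
        conv_rhs => rw [expand (hqd N i)]
        rw [eval_eq]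
        rfl
      simp only [h3] at h2
      exact h2
    refine (Finset.sum_le_sum fun i _ => h1 i).trans (le_of_eq ?_)
    rw [← Finset.mul_sum, Finset.sum_comm]
    congr 1
    refine Finset.sum_congr rfl fun p _ => ?_
    rw [hq N, map_sum]
    exact Finset.sum_congr rfl fun i _ => (map_pow _ _ _).symm
  have hQb : ∀ N a b, |Q N a b| ≤ R := by
    intro N a b
    have h1 : ∀ i, |coeff (ex a) (q N i) * coeff (ex b) (q N i)| ≤
        (coeff (ex a) (q N i) ^ 2 + coeff (ex b) (q N i) ^ 2) / 2 := by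
      intro i
      rw [abs_mul]
      have := sq_nonneg (|coeff (ex a) (q N i)| - |coeff (ex b) (q N i)|)
      have e1 := sq_abs (coeff (ex a) (q N i))
      have e2 := sq_abs (coeff (ex b) (q N i))
      nlinarith
    refine (Finset.abs_sum_le_sum_abs _ _).trans ((Finset.sum_le_sum fun i _ => h1 i).trans ?_)
    rw [← Finset.sum_div, Finset.sum_add_distrib]
    have := hdiag N a
    have := hdiag N b
    linarith
  -- a convergent subsequence
  have hmem : ∀ N, Q N ∈ Set.pi Set.univ fun _ : B v m => Set.pi Set.univ fun _ : B v m =>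
      Set.Icc (-R) R := by
    intro N a _ b _
    exact abs_le.1 (hQb N a b)
  have hcomp : IsCompact (Set.pi Set.univ fun _ : B v m => Set.pi Set.univ fun _ : B v m =>
      Set.Icc (-R) R) := isCompact_univ_pi fun _ => isCompact_univ_pi fun _ => isCompact_Icc
  obtain ⟨Q0, _, φ, hφ, hφl⟩ := hcomp.tendsto_subseq hmem
  have hent : ∀ a b, Tendsto (fun N => Q (φ N) a b) atTop (𝓝 (Q0 a b)) := by
    intro a b
    have h1 := (tendsto_pi_nhds.1 hφl) a
    exact (tendsto_pi_nhds.1 h1) b
  have hF0 : F0 = gp (m := m) Q0 := by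
    ext γ
    refine tendsto_nhds_unique ((hlim γ).comp hφ.tendsto_atTop) ?_
    have h1 : ∀ N, coeff γ (F (φ N)) = ∑ a, ∑ b, if ex a + ex b = γ then Q (φ N) a b else 0 := by
      intro N
      rw [hF, coeff_gp]
    show Tendsto (fun N => coeff γ (F (φ N))) atTop _
    simp only [h1]
    have e0 : coeff γ (gp (m := m) Q0) = ∑ a : B v m, ∑ b : B v m,
        if ex a + ex b = γ then Q0 a b else 0 := coeff_gp (Matrix.of Q0) γ
    rw [e0]
    refine tendsto_finsetSum _ fun a _ => tendsto_finsetSum _ fun b _ => ?_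
    split_ifs
    · exact hent a b
    · exact tendsto_const_nhds
  have hpsd : Matrix.PosSemidef (Matrix.of Q0 : Matrix (B v m) (B v m) ℝ) := by
    refine Matrix.PosSemidef.of_dotProduct_mulVec_nonneg ?_ ?_
    · ext a b
      rw [Matrix.conjTranspose_apply, star_trivial]
      refine tendsto_nhds_unique (hent b a) ?_
      refine (hent a b).congr fun N => ?_
      exact Finset.sum_congr rfl fun i _ => mul_comm _ _
    · intro x
      have h1 : ∀ N, 0 ≤ ∑ a, x a * ∑ b, Q (φ N) a b * x b := by
        intro N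
        have : ∑ a, x a * ∑ b, Q (φ N) a b * x b =
            ∑ i, (∑ a, x a * coeff (ex a) (q (φ N) i)) ^ 2 := by
          have e1 : ∀ i, (∑ a, x a * coeff (ex a) (q (φ N) i)) ^ 2 = ∑ a, ∑ b,
              x a * (coeff (ex a) (q (φ N) i) * coeff (ex b) (q (φ N) i)) * x b := by
            intro i
            rw [sq, Finset.sum_mul_sum]
            refine Finset.sum_congr rfl fun a _ => Finset.sum_congr rfl fun b _ => ?_
            ring
          rw [Finset.sum_congr rfl fun i _ => e1 i, Finset.sum_comm]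
          refine Finset.sum_congr rfl fun a _ => ?_
          rw [Finset.sum_comm, Finset.mul_sum]
          refine Finset.sum_congr rfl fun b _ => ?_
          show x a * ((∑ i, coeff (ex a) (q (φ N) i) * coeff (ex b) (q (φ N) i)) * x b) = _
          rw [Finset.sum_mul, Finset.mul_sum]
          refine Finset.sum_congr rfl fun i _ => ?_
          ring
        rw [this]
        exact Finset.sum_nonneg fun _ _ => sq_nonneg _
      have h2 : Tendsto (fun N => ∑ a, x a * ∑ b, Q (φ N) a b * x b) atTop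
          (𝓝 (∑ a, x a * ∑ b, Q0 a b * x b)) :=
        tendsto_finsetSum _ fun a _ => (tendsto_finsetSum _ fun b _ =>
          (hent a b).mul_const _).const_mul _
      have h3 := ge_of_tendsto' h2 h1
      simpa [dotProduct, Matrix.mulVec] using h3
  obtain ⟨M, hM⟩ := CStarAlgebra.nonneg_iff_eq_star_mul_self.mp hpsd.nonneg
  -- the squares
  let e : B v m ≃ Fin (Fintype.card (B v m)) := Fintype.equivFin _
  refine ⟨Fintype.card (B v m), fun k => ∑ a : B v m, monomial (ex a) (M (e.symm k) a), ?_⟩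
  have hQM : ∀ a b, Q0 a b = ∑ k, M k a * M k b := by
    intro a b
    have h1 := congrFun (congrFun hM a) b
    rw [Matrix.mul_apply] at h1
    simpa [Matrix.star_apply] using h1
  rw [hF0]
  unfold gp
  rw [← Equiv.sum_comp e]
  simp only [Equiv.symm_apply_apply]
  have h1 : ∀ k : B v m, (∑ a : B v m, monomial (ex a) (M k a) : MvPolynomial (Fin v) ℝ) ^ 2 =
      ∑ a, ∑ b, monomial (ex a + ex b) (M k a * M k b) := by
    intro k
    rw [sq, Finset.sum_mul_sum]
    refine Finset.sum_congr rfl fun a _ => Finset.sum_congr rfl fun b _ => ?_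
    rw [monomial_mul]
  rw [Finset.sum_congr rfl fun k _ => h1 k]
  symm
  rw [Finset.sum_comm]
  refine Finset.sum_congr rfl fun a _ => ?_
  rw [Finset.sum_comm]
  refine Finset.sum_congr rfl fun b _ => ?_
  rw [hQM, map_sum]

end Run7.h112.PS
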